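import Pool.Agent.H30.Apollo24.Final

/-!
# The curvatures of the Apollonian sphere packing of the 24-cell are exactly the natural numbers

All definitions used in the statement are in `Pool.Agent.H30.Apollo24.Defs`.
-/

set_option autoImplicit false

namespace Pool.Agent.Results.MP_ab5bd9_nt.CurvaturesAllNat

open Pool.Agent.H30.Apollo24

/-- Edge-scribed regular 24-cells with an edge whose midpoint lies on the ray through the north pole
exist, and for every such 24-cell `R` (with `ℬ` the image of its ball-arrangement projection under
the dilation by `1/√3`) each member of the Apollonian packing `Ω(ℬ)` has exactly one curvature and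
the set of curvatures of the members of `Ω(ℬ)` is the set of natural numbers. -/
theorem result :
    (∃ R : Set E4, IsOneCBP R) ∧
      ∀ R : Set E4, IsOneCBP R →
        (∀ S ∈ apollonianPacking R, ∃! κ : ℝ, HasCurvature S κ) ∧
        {κ : ℝ | ∃ S ∈ apollonianPacking R, HasCurvature S κ} =
          Set.range (fun n : ℕ => (n : ℝ)) :=
  ⟨exists_oneCBP, main_theorem⟩

end Pool.Agent.Results.MP_ab5bd9_nt.CurvaturesAllNat
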